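import Pool.Agent.Helper95.TL.T4

set_option autoImplicit false

/-! # TL-05: the final theorem: loops at every gap of a non-dense invariant set -/

namespace ChordMaps

variable {K : Set Plane}

/-- the invariance of the problem gives invariance under the chord maps -/
lemma tl_inv {V : Set Plane} (hV : V ⊆ frontier K) {v : Plane}
    (h : ∀ x ∈ V, ∀ t : ℝ, x + t • v ∈ frontier K → x + t • v ∈ V) : Inv K V v := by
  intro x hx
  obtain ⟨t, ht⟩ := chord_line K v x
  have h1 : chord K v x ∈ frontier K := chord_mem (hV hx)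
  rw [ht] at h1 ⊢
  exact h x hx t h1

/-- four pairwise non-parallel directions are in cyclic order after renumbering -/
theorem exists_cyc (u : Fin 4 → Plane) (hu : PNP u) : ∃ σ : Equiv.Perm (Fin 4), Cyc (u ∘ σ) := by
  have n01 := hu 0 1 (by decide)
  have n23 := hu 2 3 (by decide)
  have n03 := hu 0 3 (by decide)
  have n12 := hu 1 2 (by decide)
  have n02 := hu 0 2 (by decide)
  have n13 := hu 1 3 (by decide)
  set A := cross (u 0) (u 1) * cross (u 2) (u 3) with hA
  set B := cross (u 0) (u 3) * cross (u 1) (u 2) with hB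
  set C := -(cross (u 0) (u 2) * cross (u 1) (u 3)) with hC
  have hA0 : A ≠ 0 := mul_ne_zero n01 n23
  have hB0 : B ≠ 0 := mul_ne_zero n03 n12
  have hC0 : C ≠ 0 := neg_ne_zero.2 (mul_ne_zero n02 n13)
  have hsum : A + B + C = 0 := by
    rw [hA, hB, hC]
    simp only [cross]
    ring
  by_cases h1 : 0 < A * B
  · refine ⟨Equiv.refl _, ?_⟩
    unfold Cyc
    simp only [Function.comp, Equiv.refl_apply]
    have : cross (u 0) (u 1) * cross (u 1) (u 2) * (cross (u 2) (u 3) * cross (u 0) (u 3)) =
        A * B := by rw [hA, hB]; ring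
    rw [this]
    exact h1
  by_cases h2 : 0 < A * C
  · refine ⟨Equiv.swap 2 3, ?_⟩
    unfold Cyc
    have e0 : (Equiv.swap (2 : Fin 4) 3) 0 = 0 := by decide
    have e1 : (Equiv.swap (2 : Fin 4) 3) 1 = 1 := by decide
    have e2 : (Equiv.swap (2 : Fin 4) 3) 2 = 3 := by decide
    have e3 : (Equiv.swap (2 : Fin 4) 3) 3 = 2 := by decide
    simp only [Function.comp, e0, e1, e2, e3]
    have : cross (u 0) (u 1) * cross (u 1) (u 3) * (cross (u 3) (u 2) * cross (u 0) (u 2)) =
        A * C := by rw [hA, hC, cross_comm (u 3) (u 2)]; ring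
    rw [this]
    exact h2
  · refine ⟨Equiv.swap 1 2, ?_⟩
    unfold Cyc
    have e0 : (Equiv.swap (1 : Fin 4) 2) 0 = 0 := by decide
    have e1 : (Equiv.swap (1 : Fin 4) 2) 1 = 2 := by decide
    have e2 : (Equiv.swap (1 : Fin 4) 2) 2 = 1 := by decide
    have e3 : (Equiv.swap (1 : Fin 4) 2) 3 = 3 := by decide
    simp only [Function.comp, e0, e1, e2, e3]
    have : cross (u 0) (u 2) * cross (u 2) (u 1) * (cross (u 1) (u 3) * cross (u 0) (u 3)) =
        B * C := by rw [hB, hC, cross_comm (u 2) (u 1)]; ring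
    rw [this]
    have hab : A * B < 0 := lt_of_le_of_ne (not_lt.1 h1) (mul_ne_zero hA0 hB0)
    have hac : A * C < 0 := lt_of_le_of_ne (not_lt.1 h2) (mul_ne_zero hA0 hC0)
    have h3 : 0 < (A * B) * (A * C) := mul_pos_of_neg_of_neg hab hac
    have h4 : (A * B) * (A * C) = A ^ 2 * (B * C) := by ring
    rw [h4] at h3
    exact (mul_pos_iff_of_pos_left (by positivity)).1 h3

/-- `a, b` are the end points of a complementary arc (a gap) of the closure of `V` in the boundary of
`K`: two different points of the closure with no point of `V` to the right of the line from `a` to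
`b` -/
def IsGap (V : Set Plane) (a b : Plane) : Prop :=
  a ∈ closure V ∧ b ∈ closure V ∧ a ≠ b ∧ ∀ x ∈ V, 0 ≤ cross (b - a) (x - a)

theorem loops_main (K : Set Plane) (hK : IsCompact K) (hs : StrictConvex ℝ K)
    (hi : (interior K).Nonempty) (hsm : Smooth K) (u : Fin 4 → Plane) (hu : Cyc u) :
    ∃ A : ℝ, ∀ V ⊆ frontier K, V.Nonempty →
      (∀ i, ∀ x ∈ V, ∀ t : ℝ, x + t • u i ∈ frontier K → x + t • u i ∈ V) →
      closure V ≠ frontier K →
      (∃ a b, IsGap V a b) ∧ ∀ a b, IsGap V a b → ∀ c d : Bool,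
        cross (u (ltr c d)) (b - a) ≠ 0 →
        ∃ L : List Bool, Even (d :: L).length ∧
          ((d :: L).length : ℝ) * cross (u (ltr c d)) (b - a) ^ 2 ≤ A ∧
          walk K u c (d :: L) a = a ∧ walk K u c (d :: L) b = b := by
  have hB : SBody K := ⟨hK, hs, hi, hsm⟩
  have hu0 : ∀ i, u i ≠ 0 := fun i => Cyc.ne_zero u hu i
  obtain ⟨A, hA⟩ := gap_loops hB u hu
  refine ⟨A, fun V hV hne hinv hnd => ?_⟩
  have hC : closure V ⊆ frontier K := closure_minimal hV isClosed_frontier
  have hCi : ∀ i, Inv K (closure V) (u i) := fun i x hx =>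
    closure_invariant hK hs (hu0 i) hV (tl_inv hV (hinv i)) hx
  refine ⟨?_, ?_⟩
  · obtain ⟨x, hx⟩ := hne.closure
    obtain ⟨p, hp, hpC⟩ : ∃ p ∈ frontier K, p ∉ closure V := by
      by_contra hcon
      push Not at hcon
      exact hnd (Set.Subset.antisymm hC hcon)
    have hne2 : chord K (u 0) x ≠ chord K (u 1) x :=
      chord_ne_chord hK hs hsm (Cyc.ne u hu 0 1 (by decide)) (hC hx)
    obtain ⟨a, b, hab⟩ := exists_edge hB.clo hs hC
      (hK.of_isClosed_subset isClosed_closure (hC.trans hB.clo.frontier_subset))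
      (hCi 0 x hx) (hCi 1 x hx) hne2 hp hpC
    exact ⟨a, b, hab.1, hab.2.1, hab.2.2.1, fun x hx => hab.2.2.2 x (subset_closure hx)⟩
  · rintro a b ⟨ha, hb, hab, hV2⟩ c d hcd
    have hedge : Edge (closure V) a b := by
      refine ⟨ha, hb, hab, fun x hx => ?_⟩
      have hclosed : IsClosed {x : Plane | 0 ≤ cross (b - a) (x - a)} := by
        refine isClosed_le continuous_const ?_
        unfold cross
        fun_prop
      exact closure_minimal (s := V) (t := {x : Plane | 0 ≤ cross (b - a) (x - a)})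
        (fun x hx => hV2 x hx) hclosed hx
    exact hA (closure V) hC hCi a b hedge c d hcd

end ChordMaps
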