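import Pool.Agent.Helper3.LS.L27

set_option autoImplicit false

/-!
# Project TL (MP_150b3d_gt): two loops at every gap. Definitions

Directions `u 0, u 1, u 2, u 3` in cyclic order; colours: `false` = the pair `{0, 2}`, `true` = the pair `{1, 3}`.
An alternating word is given by a colour and a list of bits.
-/

namespace ChordMaps

/-- the letter with colour `c` and bit `d` -/
def ltr : Bool → Bool → Fin 4
  | false, false => 0
  | false, true => 2
  | true, false => 1
  | true, true => 3

/-- the four directions are in cyclic order (this does not change if some `u i` are replaced by
`- u i`), i.e. the pairs `{0, 2}` and `{1, 3}` separate each other -/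
def Cyc (u : Fin 4 → Plane) : Prop :=
  0 < cross (u 0) (u 1) * cross (u 1) (u 2) * (cross (u 2) (u 3) * cross (u 0) (u 3))

/-- the image of `x` under the alternating word with first colour `c` and bits `L` (first letter
first) -/
noncomputable def walk (K : Set Plane) (u : Fin 4 → Plane) : Bool → List Bool → Plane → Plane
  | _, [], x => x
  | c, d :: L, x => walk K u (!c) L (chord K (u (ltr c d)) x)

end ChordMaps
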