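import Pool.Agent.Helper95.TL.Defs

set_option autoImplicit false

/-! # TL-01: the quadratic form

Write `[i j] = cross (u i) (u j)`, `T i x = cross (u i) x`.  Lagrange identity for the four linear forms on the plane:
`∑_i T_i² / ∏_{j ≠ i} [i j] = 0`, i.e. after multiplication by all products
`[1 2][1 3][2 3] T_0² - [0 2][0 3][2 3] T_1² + [0 1][0 3][1 3] T_2² - [0 1][0 2][1 2] T_3² = 0` (check: `unfold cross; ring`).
Multiplying by a suitable sign and square factors one gets positive coefficients.  Let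
`P = [0 1][1 2][2 3][0 3] > 0` (`Cyc u`).  By Pluecker `[0 2][1 3] = [0 1][2 3] + [0 3][1 2]`, and `[0 1][2 3]` and
`[0 3][1 2]` have the same sign (their product is `P`), so `Q = [0 2][1 3] ≠ 0` has that sign too.  Multiply the identity by
`σ = [0 2][0 3][1 2]` (to be checked: the coefficients of `T_0²` and `T_2²` times `σ` are positive, and those of
`T_1²`, `T_3²` negative).  Coefficient of `T_0²`: `[1 2][1 3][2 3] * σ = [1 2]² * ([0 2][1 3]) * ([0 3][2 3])`.  Here
`[0 3][2 3] * ([0 1][1 2]) = P > 0`.  If this sign bookkeeping is unpleasant, argue as follows: all four coefficients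
`a 0 = [1 2][1 3][2 3]`, `a 1 = [0 2][0 3][2 3]`, `a 2 = [0 1][0 3][1 3]`, `a 3 = [0 1][0 2][1 2]` are nonzero and have the same
sign: `a 0 * a 2 = [1 3]² * P`, `a 1 * a 3 = [0 2]² * P`, and `a 0 * a 1 = [2 3]² * [0 2][1 3] * [0 3][1 2] > 0` because
`[0 2][1 3] * [0 3][1 2] = P + ([0 3][1 2])² > 0`.  So `c i = |a i|` works (all positive or all negative).
It follows that `PNP u`-type nonvanishing holds as well. -/

namespace ChordMaps

private theorem tl1_signs {u : Fin 4 → Plane} (hu : Cyc u) :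
    cross (u 0) (u 1) ≠ 0 ∧ cross (u 1) (u 2) ≠ 0 ∧ cross (u 2) (u 3) ≠ 0 ∧
      cross (u 0) (u 3) ≠ 0 ∧ 0 < (cross (u 0) (u 2) * cross (u 1) (u 3)) *
        (cross (u 0) (u 3) * cross (u 1) (u 2)) := by
  have hP : 0 < cross (u 0) (u 1) * cross (u 1) (u 2) *
    (cross (u 2) (u 3) * cross (u 0) (u 3)) := hu
  have h1 := left_ne_zero_of_mul hP.ne'
  have h2 := right_ne_zero_of_mul hP.ne'
  refine ⟨left_ne_zero_of_mul h1, right_ne_zero_of_mul h1, left_ne_zero_of_mul h2,
    right_ne_zero_of_mul h2, ?_⟩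
  have h3 : cross (u 0) (u 2) * cross (u 1) (u 3) * (cross (u 0) (u 3) * cross (u 1) (u 2)) =
      cross (u 0) (u 1) * cross (u 1) (u 2) * (cross (u 2) (u 3) * cross (u 0) (u 3)) +
        (cross (u 0) (u 3) * cross (u 1) (u 2)) ^ 2 := by
    simp only [cross]
    ring
  rw [h3]
  have := sq_nonneg (cross (u 0) (u 3) * cross (u 1) (u 2))
  linarith

theorem exists_form (u : Fin 4 → Plane) (hu : Cyc u) :
    ∃ c : Fin 4 → ℝ, (∀ i, 0 < c i) ∧ ∀ x : Plane,
      c 0 * cross (u 0) x ^ 2 + c 2 * cross (u 2) x ^ 2 =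
        c 1 * cross (u 1) x ^ 2 + c 3 * cross (u 3) x ^ 2 := by
  obtain ⟨h01, h12, h23, h03, hQ⟩ := tl1_signs hu
  have hP : 0 < cross (u 0) (u 1) * cross (u 1) (u 2) *
    (cross (u 2) (u 3) * cross (u 0) (u 3)) := hu
  have h02 : cross (u 0) (u 2) ≠ 0 := left_ne_zero_of_mul (left_ne_zero_of_mul hQ.ne')
  have h13 : cross (u 1) (u 3) ≠ 0 := right_ne_zero_of_mul (left_ne_zero_of_mul hQ.ne')
  have hid : ∀ x : Plane,
      cross (u 1) (u 2) * cross (u 1) (u 3) * cross (u 2) (u 3) * cross (u 0) x ^ 2 +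
        cross (u 0) (u 1) * cross (u 0) (u 3) * cross (u 1) (u 3) * cross (u 2) x ^ 2 =
      cross (u 0) (u 2) * cross (u 0) (u 3) * cross (u 2) (u 3) * cross (u 1) x ^ 2 +
        cross (u 0) (u 1) * cross (u 0) (u 2) * cross (u 1) (u 2) * cross (u 3) x ^ 2 := by
    intro x
    simp only [cross]
    ring
  have p1 : 0 < (cross (u 1) (u 2) * cross (u 1) (u 3) * cross (u 2) (u 3)) *
      (cross (u 0) (u 1) * cross (u 0) (u 3) * cross (u 1) (u 3)) := by
    have := mul_pos (pow_pos (abs_pos.2 h13) 2) hP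
    rw [sq_abs] at this
    linarith
  have p2 : 0 < (cross (u 0) (u 2) * cross (u 0) (u 3) * cross (u 2) (u 3)) *
      (cross (u 0) (u 1) * cross (u 0) (u 2) * cross (u 1) (u 2)) := by
    have := mul_pos (pow_pos (abs_pos.2 h02) 2) hP
    rw [sq_abs] at this
    linarith
  have p3 : 0 < (cross (u 1) (u 2) * cross (u 1) (u 3) * cross (u 2) (u 3)) *
      (cross (u 0) (u 2) * cross (u 0) (u 3) * cross (u 2) (u 3)) := by
    have := mul_pos (pow_pos (abs_pos.2 h23) 2) hQ
    rw [sq_abs] at this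
    linarith
  generalize cross (u 1) (u 2) * cross (u 1) (u 3) * cross (u 2) (u 3) = a0 at *
  generalize cross (u 0) (u 1) * cross (u 0) (u 3) * cross (u 1) (u 3) = a2 at *
  generalize cross (u 0) (u 2) * cross (u 0) (u 3) * cross (u 2) (u 3) = a1 at *
  generalize cross (u 0) (u 1) * cross (u 0) (u 2) * cross (u 1) (u 2) = a3 at *
  rcases lt_trichotomy a0 0 with h0 | h0 | h0
  · have g2 : a2 < 0 := neg_of_mul_pos_right p1 h0.le
    have g1 : a1 < 0 := neg_of_mul_pos_right p3 h0.le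
    have g3 : a3 < 0 := neg_of_mul_pos_right p2 g1.le
    refine ⟨![-a0, -a1, -a2, -a3], ?_, ?_⟩
    · intro i
      fin_cases i
      · exact neg_pos.2 h0
      · exact neg_pos.2 g1
      · exact neg_pos.2 g2
      · exact neg_pos.2 g3
    · intro x
      change -a0 * _ + -a2 * _ = -a1 * _ + -a3 * _
      linarith [hid x]
  · rw [h0, zero_mul] at p1
    exact absurd p1 (lt_irrefl _)
  · have g2 : 0 < a2 := (pos_iff_pos_of_mul_pos p1).1 h0
    have g1 : 0 < a1 := (pos_iff_pos_of_mul_pos p3).1 h0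
    have g3 : 0 < a3 := (pos_iff_pos_of_mul_pos p2).1 g1
    refine ⟨![a0, a1, a2, a3], ?_, ?_⟩
    · intro i
      fin_cases i
      · exact h0
      · exact g1
      · exact g2
      · exact g3
    · intro x
      change a0 * _ + a2 * _ = a1 * _ + a3 * _
      linarith [hid x]

theorem Cyc.ne (u : Fin 4 → Plane) (hu : Cyc u) : ∀ i j, i ≠ j → cross (u i) (u j) ≠ 0 := by
  obtain ⟨h01, h12, h23, h03, hQ⟩ := tl1_signs hu
  have h02 : cross (u 0) (u 2) ≠ 0 := left_ne_zero_of_mul (left_ne_zero_of_mul hQ.ne')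
  have h13 : cross (u 1) (u 3) ≠ 0 := right_ne_zero_of_mul (left_ne_zero_of_mul hQ.ne')
  have hs : ∀ i j, cross (u i) (u j) ≠ 0 → cross (u j) (u i) ≠ 0 := by
    intro i j h
    rw [cross_comm]
    exact neg_ne_zero.2 h
  intro i j hij
  fin_cases i <;> fin_cases j
  · exact absurd rfl hij
  · exact h01
  · exact h02
  · exact h03
  · exact hs _ _ h01
  · exact absurd rfl hij
  · exact h12
  · exact h13
  · exact hs _ _ h02
  · exact hs _ _ h12
  · exact absurd rfl hij
  · exact h23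
  · exact hs _ _ h03
  · exact hs _ _ h13
  · exact hs _ _ h23
  · exact absurd rfl hij

theorem Cyc.ne_zero (u : Fin 4 → Plane) (hu : Cyc u) (i : Fin 4) : u i ≠ 0 := by
  intro h0
  have h1 : ∀ j, cross (u i) (u j) = 0 := by
    intro j
    rw [h0]
    simp [cross]
  have h2 : i ≠ i + 1 := by
    fin_cases i <;> decide
  exact Cyc.ne u hu i (i + 1) h2 (h1 _)

end ChordMaps
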