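import Pool.Agent.Helper95.TL.Defs

set_option autoImplicit false

/-! # TL-02: the total size of the gaps

`m, M` lower and upper bounds of `cross u` on `K`.  For a finite set `F` of starting points of edges of `C` the intervals between
`cross u a` and `cross u (outP C a)` with `cross u a < cross u (outP C a)` are pairwise disjoint
(`edge_left_unique` in Chord/Flow.lean) subintervals of `[m, M]`; the same with `-u` in place of `u`
(`chord_neg`).  See the proof of `summable_edge` in Chord/Flow.lean, which shows exactly this (copy it; it bounds finite sums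
by `max (M - m) 0`).  So `∑ |cross u (outP C a - a)| ≤ 2 (M - m)`, and each term is at most `M - m`, so the sum of
the squares is at most `2 (M - m)²`. -/

namespace ChordMaps

open MeasureTheory in
private lemma t2_sum_le {K C : Set Plane} (hK : SBody K) (hCK : C ⊆ frontier K) {u : Plane}
    (hu : u ≠ 0) (hinv : ∀ x ∈ C, chord K u x ∈ C) {m M : ℝ} (hm : ∀ x ∈ K, m ≤ cross u x)
    (hM : ∀ x ∈ K, cross u x ≤ M) (hmM : m ≤ M) (F : Finset Plane) :
    ∑ a ∈ F, max (cross u (outP C a) - cross u a) 0 ≤ M - m := by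
  have hcl := hK.clo
  have hm' : ∀ x ∈ C, m ≤ cross u x := fun x hx => hm x (hcl.frontier_subset (hCK hx))
  have hM' : ∀ x ∈ C, cross u x ≤ M := fun x hx => hM x (hcl.frontier_subset (hCK hx))
  have hE : ∀ a, cross u a < cross u (outP C a) → Edge C a (outP C a) := by
    intro a ha
    apply edge_of_outP_ne
    intro h
    rw [h] at ha
    exact lt_irrefl _ ha
  have hdisj : (F : Set Plane).PairwiseDisjoint
      (fun a => Set.Ioo (cross u a) (cross u (outP C a))) := by
    intro i _ j _ hij
    refine Set.disjoint_left.2 fun t ht1 ht2 => hij ?_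
    have e1 := hE i (by linarith [ht1.1, ht1.2])
    have e2 := hE j (by linarith [ht2.1, ht2.2])
    exact edge_left_unique hK.cpt hK.str.convex hK.str hCK hu hinv e1 e2 ht1.1 ht1.2 ht2.1 ht2.2
  have h1 := measure_biUnion_finset (μ := volume) hdisj (fun i _ => measurableSet_Ioo)
  have h2 : volume (⋃ i ∈ F, Set.Ioo (cross u i) (cross u (outP C i))) ≤
      volume (Set.Ioo m M) := by
    refine measure_mono ?_
    intro t ht
    simp only [Set.mem_iUnion] at ht
    obtain ⟨i, _, hi⟩ := ht
    have e1 := hE i (by linarith [hi.1, hi.2])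
    exact ⟨lt_of_le_of_lt (hm' _ e1.1) hi.1, lt_of_lt_of_le hi.2 (hM' _ e1.2.1)⟩
  rw [h1, Real.volume_Ioo] at h2
  simp only [Real.volume_Ioo] at h2
  have h3 : ENNReal.ofReal (∑ i ∈ F, max (cross u (outP C i) - cross u i) 0) =
      ∑ i ∈ F, ENNReal.ofReal (cross u (outP C i) - cross u i) := by
    rw [ENNReal.ofReal_sum_of_nonneg (fun i _ => le_max_right _ _)]
    refine Finset.sum_congr rfl fun i _ => ?_
    rcases le_total (cross u (outP C i) - cross u i) 0 with h | h
    · rw [max_eq_right h, ENNReal.ofReal_of_nonpos h, ENNReal.ofReal_zero]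
    · rw [max_eq_left h]
  rw [← h3] at h2
  exact (ENNReal.ofReal_le_ofReal_iff (by linarith)).1 h2

theorem sum_gap_sq {K C : Set Plane} (hK : SBody K) (hCK : C ⊆ frontier K) {u : Plane}
    (hu : u ≠ 0) (hinv : Inv K C u) {m M : ℝ} (hm : ∀ x ∈ K, m ≤ cross u x)
    (hM : ∀ x ∈ K, cross u x ≤ M) (F : Finset Plane) :
    ∑ a ∈ F, cross u (outP C a - a) ^ 2 ≤ 2 * (M - m) ^ 2 + 2 * (M - m) ^ 2 := by
  obtain ⟨p, hp⟩ := hK.int
  have hpK : p ∈ K := interior_subset hp
  have hmM : m ≤ M := (hm p hpK).trans (hM p hpK)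
  have hcl := hK.clo
  have h1 := t2_sum_le hK hCK hu hinv hm hM hmM F
  have h2 := t2_sum_le (u := -u) (m := -M) (M := -m) hK hCK (neg_ne_zero.2 hu)
    (fun x hx => by
      rw [chord_neg hcl hK.str (hCK hx)]
      exact hinv x hx)
    (fun x hx => by
      rw [cross_neg_left]
      exact neg_le_neg (hM x hx))
    (fun x hx => by
      rw [cross_neg_left]
      exact neg_le_neg (hm x hx)) (neg_le_neg hmM) F
  have hterm : ∀ a, cross u (outP C a - a) ^ 2 ≤
      (M - m) * (max (cross u (outP C a) - cross u a) 0) +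
        (M - m) * (max (cross (-u) (outP C a) - cross (-u) a) 0) := by
    intro a
    rw [cross_neg_left, cross_neg_left, cross_sub_right]
    by_cases h : outP C a = a
    · rw [h]
      simp
    have hE := edge_of_outP_ne h
    have ha1 := hm a (hcl.frontier_subset (hCK hE.1))
    have ha2 := hM a (hcl.frontier_subset (hCK hE.1))
    have hb1 := hm _ (hcl.frontier_subset (hCK hE.2.1))
    have hb2 := hM _ (hcl.frontier_subset (hCK hE.2.1))
    rcases le_total (cross u (outP C a) - cross u a) 0 with h3 | h3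
    · rw [max_eq_right h3, max_eq_left (by linarith)]
      nlinarith
    · rw [max_eq_left h3, max_eq_right (by linarith)]
      nlinarith
  calc ∑ a ∈ F, cross u (outP C a - a) ^ 2
      ≤ ∑ a ∈ F, ((M - m) * (max (cross u (outP C a) - cross u a) 0) +
        (M - m) * (max (cross (-u) (outP C a) - cross (-u) a) 0)) :=
        Finset.sum_le_sum fun a _ => hterm a
    _ = (M - m) * ∑ a ∈ F, max (cross u (outP C a) - cross u a) 0 +
        (M - m) * ∑ a ∈ F, max (cross (-u) (outP C a) - cross (-u) a) 0 := by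
        rw [Finset.sum_add_distrib, ← Finset.mul_sum, ← Finset.mul_sum]
    _ ≤ (M - m) * (M - m) + (M - m) * (-m - -M) := by
        have h3 : 0 ≤ M - m := by linarith
        exact add_le_add (mul_le_mul_of_nonneg_left h1 h3) (mul_le_mul_of_nonneg_left h2 h3)
    _ ≤ 2 * (M - m) ^ 2 + 2 * (M - m) ^ 2 := by nlinarith [sq_nonneg (M - m)]

end ChordMaps
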