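import Pool.Agent.Helper95.TL.Defs

set_option autoImplicit false

/-! # TL-03: the abstract return lemma (mass conservation)

`X` with involutions `f i`, energies `q i x ≥ 0`, `q i (f i x) = q i x`, `p x = q 0 x + q 2 x = q 1 x + q 3 x > 0`.
States `(x, c) : X × Bool`.  From `(x, c)` the bit `d` leads to `(f (ltr c d) x, !c)`, with probability `q (ltr c d) x / p x`.
`go f c L x` is the end point of the walk with first colour `c` and bits `L`, its final colour is `c` if `L` has even length.

Proof.  Let `s0 = (x0, c0)`, `i0 = ltr c0 d0`, `ε = q i0 x0 > 0`, `s1 = (f i0 x0, !c0)`.  Suppose that no `L` of odd length `≤ n`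
(`L` starting at `s1` with colour `!c0`) returns to `x0`.  [A return to the state `s0` has final colour `c0`.]
Define `G : ℕ → X × Bool → ℝ` by `G 0 s = if s = s1 then ε else 0`,
`G (k+1) (y, c) = (if (y, c) = s1 then ε else 0) + ∑ d : Bool, G k (f (ltr (!c) d) y, !c) * q (ltr (!c) d) y / p (f (ltr (!c) d) y)`
(the sum runs over the two predecessors of `(y, c)`).  Let `R 0 = {s1}`,
`R (k+1) = {s1} ∪ R k.image (move false) ∪ R k.image (move true)` (Finset, classical decidability); `G k` vanishes outside of `R k`, and the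
elements of `R k` are the end states of walks of length `≤ k` from `s1`.
(a) `0 ≤ G k s` and, as long as `s0 ∉ R (k-1)`, `G k s ≤ p s.1`: by induction
`G (k+1) (y, c) ≤ (if (y, c) = s1 then ε else 0) + ∑_{d, predecessor ≠ s0} q (ltr (!c) d) y ≤ p y`; here the term of a predecessor
`= s0` is zero since `G k s0 = 0`, and for `(y, c) = s1` the predecessor for the letter `i0` is `s0`
(`f i0 (f i0 x0) = x0`), whose share `q i0 (f i0 x0) = ε` is free for the source term.
(b) `∑ s ∈ R k, G k s = (k + 1) * ε`: every state passes on all of its mass: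
`∑ d, q (ltr c d) x / p x = 1`.  (For the exchange of sums: `∑_{(y,c) ∈ R(k+1)} ∑_d G k (f y, !c) * ...`, substitute `x = f y`,
a bijection (`f` an involution), and `G k` vanishes outside `R k`.  It may be more convenient to write all sums as `tsum`/`finsum`
or over words: `G k s = ∑_{j ≤ k} ∑_{L : length j, end L = s} weight L`.)
(c) `∑ s ∈ R k, G k s ≤ ∑ s ∈ R k, p s.1 ≤ 2 B` (for each colour a finite set of points).
So `(k + 1) ε ≤ 2 B` for all `k` such that no return occurs within `k - 1` further steps.  Choose `k = ⌊2 B / ε⌋ + 1` or so: there is a return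
word of total length `≤ 2 B / ε + 2`. -/

namespace ChordMaps

/-- end point of an alternating walk -/
def go {X : Type*} (f : Fin 4 → X → X) : Bool → List Bool → X → X
  | _, [], x => x
  | c, d :: L, x => go f (!c) L (f (ltr c d) x)

/-- the value of an outgoing edge, summed over the bits -/
private lemma tl_sum_out {X : Type*} (q : Fin 4 → X → ℝ) (hp : ∀ x, q 0 x + q 2 x = q 1 x + q 3 x)
    (x : X) (c : Bool) : ∑ d : Bool, q (ltr c d) x = q 0 x + q 2 x := by
  rw [Fintype.sum_bool]
  cases c
  · change q 2 x + q 0 x = _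
    ring
  · change q 3 x + q 1 x = _
    rw [hp]
    ring

theorem exists_return {X : Type*} (f : Fin 4 → X → X) (hf : ∀ i x, f i (f i x) = x)
    (q : Fin 4 → X → ℝ) (hq0 : ∀ i x, 0 ≤ q i x) (hq : ∀ i x, q i (f i x) = q i x)
    (hp : ∀ x, q 0 x + q 2 x = q 1 x + q 3 x) (hpos : ∀ x, 0 < q 0 x + q 2 x)
    {B : ℝ} (hB : ∀ F : Finset X, ∑ x ∈ F, (q 0 x + q 2 x) ≤ B)
    (x0 : X) (c0 d0 : Bool) (hε : 0 < q (ltr c0 d0) x0) :
    ∃ L : List Bool, Even (d0 :: L).length ∧
      ((d0 :: L).length : ℝ) ≤ 2 * B / q (ltr c0 d0) x0 + 2 ∧ go f c0 (d0 :: L) x0 = x0 := by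
  classical
  have h0B : 0 ≤ B := by simpa using hB ∅
  -- the states from which `x0` can be reached
  let U : Bool → X × Bool → X × Bool := fun d s => (f (ltr (!s.2) d) s.1, !s.2)
  let R : ℕ → Finset (X × Bool) := fun k => Nat.rec {(x0, c0)}
    (fun _ S => {(x0, c0)} ∪ (S.image (U false) ∪ S.image (U true))) k
  have hR0 : R 0 = {(x0, c0)} := rfl
  have hR1 : ∀ k, R (k + 1) = {(x0, c0)} ∪ ((R k).image (U false) ∪ (R k).image (U true)) :=
    fun k => rfl
  have hs0 : ∀ k, (x0, c0) ∈ R k := by
    intro k
    cases k with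
    | zero => rw [hR0]; exact Finset.mem_singleton_self _
    | succ k => rw [hR1]; exact Finset.mem_union_left _ (Finset.mem_singleton_self _)
  have hU : ∀ k d s, s ∈ R k → U d s ∈ R (k + 1) := by
    intro k d s hs
    rw [hR1]
    apply Finset.mem_union_right
    cases d
    · exact Finset.mem_union_left _ (Finset.mem_image_of_mem _ hs)
    · exact Finset.mem_union_right _ (Finset.mem_image_of_mem _ hs)
  have hwalk : ∀ k (s : X × Bool), s ∈ R k → ∃ L : List Bool, L.length ≤ k ∧
      go f s.2 L s.1 = x0 ∧ (s.2 = c0 ↔ Even L.length) := by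
    intro k
    induction k with
    | zero =>
      intro s hs
      rw [hR0, Finset.mem_singleton] at hs
      subst hs
      exact ⟨[], le_rfl, rfl, by simp⟩
    | succ k ih =>
      intro s hs
      rw [hR1, Finset.mem_union, Finset.mem_singleton, Finset.mem_union, Finset.mem_image,
        Finset.mem_image] at hs
      have key : ∀ d : Bool, ∀ r ∈ R k, U d r = s → ∃ L : List Bool, L.length ≤ k + 1 ∧
          go f s.2 L s.1 = x0 ∧ (s.2 = c0 ↔ Even L.length) := by
        intro d r hr hrs
        obtain ⟨L, hL, hL1, hL2⟩ := ih r hr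
        refine ⟨d :: L, by simp only [List.length_cons]; omega, ?_, ?_⟩
        · rw [← hrs]
          change go f (!(!r.2)) L (f (ltr (!r.2) d) (f (ltr (!r.2) d) r.1)) = x0
          rw [hf, Bool.not_not, hL1]
        · rw [← hrs, List.length_cons, Nat.even_add_one, ← hL2]
          change (!r.2) = c0 ↔ _
          cases r.2 <;> cases c0 <;> simp
      rcases hs with h | ⟨r, hr, hrs⟩ | ⟨r, hr, hrs⟩
      · subst h
        exact ⟨[], by simp, rfl, by simp⟩
      · exact key false r hr hrs
      · exact key true r hr hrs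
  -- the measure of a set of states
  let m : Finset (X × Bool) → ℝ := fun S => ∑ s ∈ S, (q 0 s.1 + q 2 s.1)
  have hm : ∀ S, m S ≤ 2 * B := by
    intro S
    have h1 : m S ≤ ∑ s ∈ (S.image Prod.fst) ×ˢ (Finset.univ : Finset Bool),
        (q 0 s.1 + q 2 s.1) := by
      apply Finset.sum_le_sum_of_subset_of_nonneg
      · intro s hs
        rw [Finset.mem_product]
        exact ⟨Finset.mem_image_of_mem _ hs, Finset.mem_univ _⟩
      · intro s _ _
        exact (hpos s.1).le
    rw [Finset.sum_product] at h1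
    have h2 := hB (S.image Prod.fst)
    have h3 : ∑ x ∈ S.image Prod.fst, ∑ _y : Bool, (q 0 x + q 2 x) =
        2 * ∑ x ∈ S.image Prod.fst, (q 0 x + q 2 x) := by
      rw [Finset.mul_sum]
      refine Finset.sum_congr rfl fun x _ => ?_
      rw [Finset.sum_const, Finset.card_univ, Fintype.card_bool, nsmul_eq_mul, Nat.cast_ofNat]
    rw [h3] at h1
    linarith
  have hε1 : q (ltr c0 d0) x0 ≤ q 0 x0 + q 2 x0 := by
    rw [← tl_sum_out q hp x0 c0]
    exact Finset.single_le_sum (f := fun d => q (ltr c0 d) x0) (fun d _ => hq0 _ _)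
      (Finset.mem_univ d0)
  have hstep : ∀ k, (f (ltr c0 d0) x0, !c0) ∉ R k →
      m (R k) + q (ltr c0 d0) x0 ≤ m (R (k + 1)) := by
    intro k hk
    let Ψ : (X × Bool) × Bool → (X × Bool) × Bool := fun e => (U e.2 e.1, e.2)
    let vin : (X × Bool) × Bool → ℝ := fun e => q (ltr (!e.1.2) e.2) e.1.1
    let vout : (X × Bool) × Bool → ℝ := fun e => q (ltr e.1.2 e.2) e.1.1
    have hΨ : Function.Injective Ψ := by
      rintro ⟨⟨x, c⟩, d⟩ ⟨⟨x', c'⟩, d'⟩ h
      simp only [Ψ, U, Prod.mk.injEq] at h
      obtain ⟨⟨h1, h2⟩, h3⟩ := h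
      subst h3
      have h4 : c = c' := by
        have := congrArg not h2
        simpa using this
      subst h4
      have h5 := congrArg (f (ltr (!c) d)) h1
      rw [hf, hf] at h5
      rw [h5]
    have hv : ∀ e, vout (Ψ e) = vin e := fun e => hq _ _
    have h1 : m (R k) + q (ltr c0 d0) x0 =
        ∑ e ∈ insert ((f (ltr c0 d0) x0, !c0), d0) ((R k) ×ˢ (Finset.univ : Finset Bool)), vin e := by
      rw [Finset.sum_insert, Finset.sum_product, add_comm]
      · congr 1
        · change _ = q (ltr (!(!c0)) d0) (f (ltr c0 d0) x0)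
          rw [Bool.not_not, hq]
        · refine Finset.sum_congr rfl fun s _ => ?_
          exact (tl_sum_out q hp s.1 (!s.2)).symm
      · intro h
        rw [Finset.mem_product] at h
        exact hk h.1
    have h2 : m (R (k + 1)) = ∑ e ∈ (R (k + 1)) ×ˢ (Finset.univ : Finset Bool), vout e := by
      rw [Finset.sum_product]
      exact Finset.sum_congr rfl fun s _ => (tl_sum_out q hp s.1 s.2).symm
    rw [h1, h2]
    calc _ = ∑ e ∈ insert ((f (ltr c0 d0) x0, !c0), d0) ((R k) ×ˢ (Finset.univ : Finset Bool)),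
          vout (Ψ e) := Finset.sum_congr rfl fun e _ => (hv e).symm
      _ = ∑ e ∈ (insert ((f (ltr c0 d0) x0, !c0), d0)
            ((R k) ×ˢ (Finset.univ : Finset Bool))).image Ψ, vout e :=
          (Finset.sum_image fun a _ b _ h => hΨ h).symm
      _ ≤ _ := by
          apply Finset.sum_le_sum_of_subset_of_nonneg
          · intro e he
            rw [Finset.mem_image] at he
            obtain ⟨e', he', rfl⟩ := he
            rw [Finset.mem_product]
            refine ⟨?_, Finset.mem_univ _⟩
            rw [Finset.mem_insert, Finset.mem_product] at he'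
            rcases he' with h | h
            · rw [h]
              change (f (ltr (!(!c0)) d0) (f (ltr c0 d0) x0), !(!c0)) ∈ _
              rw [Bool.not_not, hf]
              exact hs0 (k + 1)
            · exact hU k e'.2 e'.1 h.1
          · intro e _ _
            exact hq0 _ _
  have hgrow : ∀ k, (∀ j < k, (f (ltr c0 d0) x0, !c0) ∉ R j) →
      ((k : ℝ) + 1) * q (ltr c0 d0) x0 ≤ m (R k) := by
    intro k
    induction k with
    | zero =>
      intro _
      have h1 : m (R 0) = q 0 x0 + q 2 x0 := by
        rw [hR0]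
        exact Finset.sum_singleton _ _
      rw [h1]
      simpa using hε1
    | succ k ih =>
      intro hj
      have h1 := ih fun j hjk => hj j (by omega)
      have h2 := hstep k (hj k (by omega))
      push_cast
      linarith
  have hex : ∃ k, k ≤ ⌊2 * B / q (ltr c0 d0) x0⌋₊ ∧ (f (ltr c0 d0) x0, !c0) ∈ R k := by
    refine Classical.byContradiction fun hno => ?_
    push Not at hno
    have h1 := hgrow (⌊2 * B / q (ltr c0 d0) x0⌋₊ + 1) fun j hj => hno j (by omega)
    have h2 := hm (R (⌊2 * B / q (ltr c0 d0) x0⌋₊ + 1))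
    have h3 := Nat.lt_floor_add_one (2 * B / q (ltr c0 d0) x0)
    rw [div_lt_iff₀ hε] at h3
    push_cast at h1
    nlinarith
  obtain ⟨k, hk, hkR⟩ := hex
  obtain ⟨L, hL, hL1, hL2⟩ := hwalk k _ hkR
  refine ⟨L, ?_, ?_, ?_⟩
  · rw [List.length_cons, Nat.even_add_one, ← hL2]
    change ¬ ((!c0) = c0)
    cases c0 <;> simp
  · have h1 : (L.length : ℝ) ≤ ⌊2 * B / q (ltr c0 d0) x0⌋₊ := by exact_mod_cast hL.trans hk
    have h2 := Nat.floor_le (show 0 ≤ 2 * B / q (ltr c0 d0) x0 by positivity)
    rw [List.length_cons]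
    push_cast
    linarith
  · exact hL1

end ChordMaps
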