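import Pool.Agent.Helper95.TL.T1
import Pool.Agent.Helper95.TL.T2
import Pool.Agent.Helper95.TL.T3

set_option autoImplicit false

/-! # TL-04: every gap is fixed by an alternating word of bounded length starting with any given letter

Let `X = {a // ∃ b, Edge C a b}` (starting points of the edges of `C`), `E a = outP C a - a` (`outP_edge`), `f i a = chord K (u i) (outP C a)`:
`(chord K (u i) b, chord K (u i) a)` is an edge if `(a, b)` is (`edge_chord` in Chord/Flow.lean), so `f i a ∈ X`, its end point is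
`chord K (u i) a`, `f i (f i a) = a` (`chord_chord`), and `cross (u i) (E (f i a)) = - cross (u i) (E a)` (`cross_chord`).
`q i a = c i * cross (u i) (E a) ^ 2` with `c` from `exists_form` (TL-01).  `q 0 a + q 2 a > 0` because `E a ≠ 0` and `u 0, u 2`
are not parallel (`Cyc.ne`).  `B` from `sum_gap_sq` (TL-02) for `u 0` and `u 2` (`B = c 0 * 4 W0² + c 2 * 4 W2²`, `W_i` the width of `K` for
`cross (u i)`: `K` is compact; it depends on `K, u` only).
`exists_return` (TL-03) gives `L`.  By induction on the list: for a starting point `a` of an edge `(a, b)`: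
if `L` has even length, then `go f c L a = walk K u c L a` and the end point of the edge starting at it is `walk K u c L b`;
if `L` has odd length, then `go f c L a = walk K u c L b` and the end point is `walk K u c L a`.
So for even `L` with `go f c L a = a`: `walk a = a` and `walk b = b`.
The constant: `length ≤ 2 B / (c i * cross (u i) (b - a) ^ 2) + 2 ≤ A / cross (u i) (b - a) ^ 2` with
`A = max_i (2 B / c i) + 2 max_i W_i²` (as `|cross (u i) (b - a)| ≤ W_i`). -/

namespace ChordMaps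

private lemma t4_zero {v w x : Plane} (h : cross v w ≠ 0) (h1 : cross v x = 0)
    (h2 : cross w x = 0) : x = 0 := by
  have hv : v ≠ 0 := by
    rintro rfl
    exact h (by simp [cross])
  obtain ⟨t, ht⟩ := exists_smul_of_cross_eq_zero hv h1
  rw [ht, cross_smul_right] at h2
  have h3 : cross w v ≠ 0 := fun h4 => h (by rw [cross_comm, h4, neg_zero])
  rcases mul_eq_zero.1 h2 with h4 | h4
  · rw [ht, h4, zero_smul]
  · exact absurd h4 h3

private lemma t4_bd {K : Set Plane} (hK : IsCompact K) (v : Plane) :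
    ∃ m M : ℝ, (∀ x ∈ K, m ≤ cross v x) ∧ ∀ x ∈ K, cross v x ≤ M := by
  have hc : ContinuousOn (fun x : Plane => cross v x) K := by
    unfold cross
    fun_prop
  have hb := hK.image_of_continuousOn hc
  obtain ⟨m, hm⟩ := hb.bddBelow
  obtain ⟨M, hM⟩ := hb.bddAbove
  exact ⟨m, M, fun x hx => hm ⟨x, hx, rfl⟩, fun x hx => hM ⟨x, hx, rfl⟩⟩

theorem gap_loops {K : Set Plane} (hK : SBody K) (u : Fin 4 → Plane) (hu : Cyc u) :
    ∃ A : ℝ, ∀ C ⊆ frontier K, (∀ i, Inv K C (u i)) → ∀ a b, Edge C a b → ∀ c d : Bool,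
      cross (u (ltr c d)) (b - a) ≠ 0 →
      ∃ L : List Bool, Even (d :: L).length ∧
        ((d :: L).length : ℝ) * cross (u (ltr c d)) (b - a) ^ 2 ≤ A ∧
        walk K u c (d :: L) a = a ∧ walk K u c (d :: L) b = b := by
  obtain ⟨κ, hκ, hform⟩ := exists_form u hu
  choose m M hm hM using fun i => t4_bd hK.cpt (u i)
  have hcl := hK.cpt.isClosed
  have hs := hK.str
  have hcv := hs.convex
  set B : ℝ := κ 0 * (2 * (M 0 - m 0) ^ 2 + 2 * (M 0 - m 0) ^ 2) +
    κ 2 * (2 * (M 2 - m 2) ^ 2 + 2 * (M 2 - m 2) ^ 2) with hBdef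
  have hB0 : 0 ≤ B := by
    have h0 := (hκ 0).le
    have h2 := (hκ 2).le
    positivity
  have hterm : ∀ i, 0 ≤ 2 * B / κ i + 2 * (M i - m i) ^ 2 := fun i => by
    have := (hκ i).le
    positivity
  refine ⟨∑ i, (2 * B / κ i + 2 * (M i - m i) ^ 2), ?_⟩
  intro C hCK hinv a b hab c d hne
  have hE : ∀ x : {a // ∃ b, Edge C a b}, Edge C x.1 (outP C x.1) := by
    rintro ⟨x, y, hxy⟩
    show Edge C x (outP C x)
    rw [outP_edge hcl hs hCK hxy]
    exact hxy
  let f : Fin 4 → {a // ∃ b, Edge C a b} → {a // ∃ b, Edge C a b} := fun i x =>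
    ⟨chord K (u i) (outP C x.1), chord K (u i) x.1,
      edge_chord hK.cpt hcv hs hCK (Cyc.ne_zero u hu i) (hinv i) (hE x)⟩
  have hf1 : ∀ i x, (f i x).1 = chord K (u i) (outP C x.1) := fun i x => rfl
  have hf2 : ∀ i x, outP C (f i x).1 = chord K (u i) x.1 := fun i x =>
    outP_edge hcl hs hCK
      (edge_chord hK.cpt hcv hs hCK (Cyc.ne_zero u hu i) (hinv i) (hE x))
  have hff : ∀ i x, f i (f i x) = x := fun i x => by
    apply Subtype.ext
    rw [hf1, hf2]
    exact chord_chord hcl hs (hCK (hE x).1)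
  let q : Fin 4 → {a // ∃ b, Edge C a b} → ℝ := fun i x =>
    κ i * cross (u i) (outP C x.1 - x.1) ^ 2
  have hq1 : ∀ i x, q i x = κ i * cross (u i) (outP C x.1 - x.1) ^ 2 := fun i x => rfl
  have hq0 : ∀ i x, 0 ≤ q i x := fun i x => mul_nonneg (hκ i).le (sq_nonneg _)
  have hqf : ∀ i x, q i (f i x) = q i x := fun i x => by
    rw [hq1, hq1, hf2, hf1, cross_sub_right, cross_sub_right, cross_chord, cross_chord]
    ring
  have hp : ∀ x, q 0 x + q 2 x = q 1 x + q 3 x := fun x => hform _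
  have hpos : ∀ x, 0 < q 0 x + q 2 x := fun x => by
    have h0 := hq0 0 x
    have h2 := hq0 2 x
    refine lt_of_le_of_ne (by linarith) fun h => ?_
    have h3 : q 0 x = 0 := by linarith
    have h4 : q 2 x = 0 := by linarith
    rw [hq1] at h3 h4
    have h5 : cross (u 0) (outP C x.1 - x.1) = 0 := by
      rcases mul_eq_zero.1 h3 with h | h
      · exact absurd h (hκ 0).ne'
      · exact pow_eq_zero_iff (two_ne_zero) |>.1 h
    have h6 : cross (u 2) (outP C x.1 - x.1) = 0 := by
      rcases mul_eq_zero.1 h4 with h | h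
      · exact absurd h (hκ 2).ne'
      · exact pow_eq_zero_iff (two_ne_zero) |>.1 h
    have h7 := t4_zero (Cyc.ne u hu 0 2 (by decide)) h5 h6
    exact (hE x).2.2.1 (sub_eq_zero.1 h7).symm
  have hB : ∀ F : Finset {a // ∃ b, Edge C a b}, ∑ x ∈ F, (q 0 x + q 2 x) ≤ B := fun F => by
    have h0 := sum_gap_sq hK hCK (Cyc.ne_zero u hu 0) (hinv 0) (hm 0) (hM 0)
      (F.map (Function.Embedding.subtype _))
    have h2 := sum_gap_sq hK hCK (Cyc.ne_zero u hu 2) (hinv 2) (hm 2) (hM 2)
      (F.map (Function.Embedding.subtype _))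
    rw [Finset.sum_map] at h0 h2
    rw [Finset.sum_add_distrib]
    have e0 : ∑ x ∈ F, q 0 x = κ 0 * ∑ x ∈ F, cross (u 0) (outP C x.1 - x.1) ^ 2 := by
      rw [Finset.mul_sum]
    have e2 : ∑ x ∈ F, q 2 x = κ 2 * ∑ x ∈ F, cross (u 2) (outP C x.1 - x.1) ^ 2 := by
      rw [Finset.mul_sum]
    rw [e0, e2, hBdef]
    exact add_le_add (mul_le_mul_of_nonneg_left h0 (hκ 0).le)
      (mul_le_mul_of_nonneg_left h2 (hκ 2).le)
  have hob : outP C a = b := outP_edge hcl hs hCK hab
  have hT : 0 < cross (u (ltr c d)) (b - a) ^ 2 := by positivity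
  have hε : 0 < q (ltr c d) ⟨a, b, hab⟩ := by
    rw [hq1]
    show 0 < κ (ltr c d) * cross (u (ltr c d)) (outP C a - a) ^ 2
    rw [hob]
    exact mul_pos (hκ _) hT
  obtain ⟨L, hL, hlen, hgo⟩ := exists_return f hff q hq0 hqf hp hpos hB ⟨a, b, hab⟩ c d hε
  have key : ∀ (L : List Bool) (c : Bool) (x : {a // ∃ b, Edge C a b}),
      (Even L.length → (go f c L x).1 = walk K u c L x.1 ∧
        outP C (go f c L x).1 = walk K u c L (outP C x.1)) ∧
      (¬ Even L.length → (go f c L x).1 = walk K u c L (outP C x.1) ∧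
        outP C (go f c L x).1 = walk K u c L x.1) := by
    intro L
    induction L with
    | nil =>
      intro c x
      refine ⟨fun _ => ⟨rfl, rfl⟩, fun h => absurd ?_ h⟩
      simp
    | cons e L ih =>
      intro c x
      have h := ih (!c) (f (ltr c e) x)
      have h1 : go f c (e :: L) x = go f (!c) L (f (ltr c e) x) := rfl
      have h2 : ∀ y, walk K u c (e :: L) y = walk K u (!c) L (chord K (u (ltr c e)) y) :=
        fun y => rfl
      rw [h1, h2, h2, ← hf1, ← hf2]
      have h3 : Even (e :: L).length ↔ ¬ Even L.length := by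
        rw [List.length_cons]
        exact Nat.even_add_one
      refine ⟨fun h4 => ?_, fun h4 => ?_⟩
      · exact h.2 (h3.1 h4)
      · rw [h3, not_not] at h4
        exact h.1 h4
  obtain ⟨k1, k2⟩ := (key (d :: L) c ⟨a, b, hab⟩).1 hL
  rw [hgo] at k1 k2
  have k2' : outP C a = walk K u c (d :: L) (outP C a) := k2
  rw [hob] at k2'
  refine ⟨L, hL, ?_, k1.symm, k2'.symm⟩
  have hq2 : q (ltr c d) ⟨a, b, hab⟩ = κ (ltr c d) * cross (u (ltr c d)) (b - a) ^ 2 := by
    rw [hq1]
    show κ (ltr c d) * cross (u (ltr c d)) (outP C a - a) ^ 2 = _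
    rw [hob]
  rw [hq2] at hlen
  have hTW : cross (u (ltr c d)) (b - a) ^ 2 ≤ (M (ltr c d) - m (ltr c d)) ^ 2 := by
    have haK : a ∈ K := hcl.frontier_subset (hCK hab.1)
    have hbK : b ∈ K := hcl.frontier_subset (hCK hab.2.1)
    rw [cross_sub_right]
    refine sq_le_sq' ?_ ?_
    · linarith [hm (ltr c d) b hbK, hM (ltr c d) a haK]
    · linarith [hm (ltr c d) a haK, hM (ltr c d) b hbK]
  have hκi := hκ (ltr c d)
  calc ((d :: L).length : ℝ) * cross (u (ltr c d)) (b - a) ^ 2
      ≤ (2 * B / (κ (ltr c d) * cross (u (ltr c d)) (b - a) ^ 2) + 2) *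
        cross (u (ltr c d)) (b - a) ^ 2 := mul_le_mul_of_nonneg_right hlen hT.le
    _ = 2 * B / κ (ltr c d) + 2 * cross (u (ltr c d)) (b - a) ^ 2 := by
        field_simp
    _ ≤ 2 * B / κ (ltr c d) + 2 * (M (ltr c d) - m (ltr c d)) ^ 2 := by linarith
    _ ≤ ∑ i, (2 * B / κ i + 2 * (M i - m i) ^ 2) :=
        Finset.single_le_sum (f := fun i => 2 * B / κ i + 2 * (M i - m i) ^ 2)
          (fun i _ => hterm i) (Finset.mem_univ _)

end ChordMaps
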